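import Pool.Agent.Lib.MP_0820eb_co.Dens.Main

/-- For every `λ > 1` and `ε > 0`, the number of `v ≤ X` that are orders of a finite abelian group
containing a difference set with parameter `λ` is `O(√X / (log X) ^ (3 / 2 - ε))`. -/
theorem Pool.Agent.Results.MP_0820eb_co.Density.result :
    ∀ lam : ℕ, 1 < lam → ∀ ε : ℝ, 0 < ε → ∃ C : ℝ, ∀ X : ℕ, 2 ≤ X →
      (Set.ncard {v : ℕ | v ≤ X ∧ ∃ (G : Type) (_ : CommGroup G) (_ : Finite G),
        Nat.card G = v ∧ ∃ D : Set G, ∀ g : G, g ≠ 1 →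
          Set.ncard {p : G × G | p.1 ∈ D ∧ p.2 ∈ D ∧ p.1 * p.2⁻¹ = g} = lam} : ℝ) ≤
      C * Real.sqrt X / Real.log X ^ (3 / 2 - ε) :=
  fun lam hl ε hε => Pool.Agent.Lib.MP_0820eb_co.Dens.density lam hl ε hε
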