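import Pool.Agent.Lib.MP_0820eb_co.SylowSub

open Pool.Agent.Lib.MP_0820eb_co

/-- If an abelian group of order divisible by four contains a difference set `D` with `λ = 2`,
then it has a subgroup `P` of odd index and order 4 or 16 such that the part of a translate of `D`
inside `P` is a difference set of `P` with `λ = 2`. -/
theorem Pool.Agent.Results.MP_0820eb_co.SylowBiplane.result :
    ∀ (G : Type) [CommGroup G] [Finite G] (D : Set G),
      (∀ g : G, g ≠ 1 → Set.ncard {p : G × G | p.1 ∈ D ∧ p.2 ∈ D ∧ p.1 * p.2⁻¹ = g} = 2) →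
      4 ∣ Nat.card G →
      ∃ P : Subgroup G, Odd P.index ∧ (Nat.card P = 4 ∨ Nat.card P = 16) ∧
        ∃ h : G, ∀ g ∈ P, g ≠ 1 →
          Set.ncard {p : G × G | p.1 ∈ D ∧ p.2 ∈ D ∧ p.1 * h ∈ P ∧ p.2 * h ∈ P ∧
            p.1 * p.2⁻¹ = g} = 2 := by
  intro G _ _ D hD h4
  classical
  have := Fintype.ofFinite G
  rw [Nat.card_eq_fintype_card] at h4
  have hDS : DS D.toFinset := by
    intro g hg
    rw [← hD g hg, ← Set.ncard_coe_finset,
      ← Set.ncard_image_of_injective _ (f := fun y => (g * y, y)) fun a b h => congrArg Prod.snd h]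
    congr 1
    ext ⟨x, y⟩
    simp only [Set.mem_image, Finset.mem_coe, mem_Rep, Set.mem_toFinset, Prod.mk.injEq,
      Set.mem_ofPred_eq]
    constructor
    · rintro ⟨z, ⟨h1, h2⟩, rfl, rfl⟩
      exact ⟨h2, h1, mul_inv_cancel_right _ _⟩
    · rintro ⟨h1, h2, rfl⟩
      exact ⟨y, ⟨h2, by simpa using h1⟩, by simp, rfl⟩
  obtain ⟨P, h1, h2, h, h3⟩ := sylow_sub hDS h4
  refine ⟨P, Nat.not_even_iff_odd.mp fun he => h1 (even_iff_two_dvd.mp he), h2, h,
    fun g hgP hg => ?_⟩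
  rw [← hD g hg]
  congr 1
  ext ⟨x, y⟩
  simp only [Set.mem_ofPred_eq]
  constructor
  · rintro ⟨a, b, -, -, c⟩
    exact ⟨a, b, c⟩
  · rintro ⟨a, b, c⟩
    have hx : x = g * y := by rw [← c]; simp
    have hy : y * h ∈ P := h3 g hgP hg y (mem_Rep.mpr
      ⟨Set.mem_toFinset.mpr b, Set.mem_toFinset.mpr (hx ▸ a)⟩)
    refine ⟨a, b, ?_, hy, c⟩
    rw [hx, mul_assoc]
    exact P.mul_mem hgP hy
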